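import Pool.Agent.Helper99.SI.StT

/-!
# Module T8 of project SI: the gauge grading of a Leavitt path algebra
-/

set_option autoImplicit false

namespace Pool.Agent.Helper85.SI

open Pool.Agent.Helper99.SI Pool.Agent.Helper92 Pool.Agent.Helper92.LV

section

variable {V E : Type} [Fintype V] [Fintype E] [DecidableEq V] [DecidableEq E] (G : LV.Graph V E)

/-- Laurent polynomials over the Leavitt path algebra. -/
abbrev LM : Type := AddMonoidAlgebra (LPA ℂ G) ℤ

/-- The graded family. -/
noncomputable def gfam : Fam ℂ G (LM G) where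
  v a := AddMonoidAlgebra.single 0 (gen ℂ G (Gen.v a))
  e x := AddMonoidAlgebra.single 1 (gen ℂ G (Gen.e x))
  g x := AddMonoidAlgebra.single (-1) (gen ℂ G (Gen.g x))
  vv a b := by
    rw [AddMonoidAlgebra.single_mul_single, zero_add,
      show gen ℂ G (Gen.v a) * gen ℂ G (Gen.v b) = if a = b then gen ℂ G (Gen.v a) else 0 from
        (canon ℂ G).vv a b]
    split_ifs
    · rfl
    · exact AddMonoidAlgebra.single_zero _
  se x := by
    rw [AddMonoidAlgebra.single_mul_single, zero_add]
    exact congrArg _ ((canon ℂ G).se x)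
  er x := by
    rw [AddMonoidAlgebra.single_mul_single, add_zero]
    exact congrArg _ ((canon ℂ G).er x)
  rg x := by
    rw [AddMonoidAlgebra.single_mul_single, zero_add]
    exact congrArg _ ((canon ℂ G).rg x)
  gs x := by
    rw [AddMonoidAlgebra.single_mul_single, add_zero]
    exact congrArg _ ((canon ℂ G).gs x)
  ck1 x y := by
    rw [AddMonoidAlgebra.single_mul_single, neg_add_cancel,
      show gen ℂ G (Gen.g x) * gen ℂ G (Gen.e y) = if x = y then gen ℂ G (Gen.v (G.r x)) else 0 from
        (canon ℂ G).ck1 x y]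
    split_ifs
    · rfl
    · exact AddMonoidAlgebra.single_zero _
  ck2 a h := by
    have h1 : ∀ x, (AddMonoidAlgebra.single 1 (gen ℂ G (Gen.e x)) : LM G) *
        AddMonoidAlgebra.single (-1) (gen ℂ G (Gen.g x)) =
        AddMonoidAlgebra.single 0 (gen ℂ G (Gen.e x) * gen ℂ G (Gen.g x)) := by
      intro x
      rw [AddMonoidAlgebra.single_mul_single, add_neg_cancel]
    simp only [h1]
    rw [show gen ℂ G (Gen.v a) = ∑ x with G.s x = a, gen ℂ G (Gen.e x) * gen ℂ G (Gen.g x) from
      (canon ℂ G).ck2 a h]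
    exact map_sum (AddMonoidAlgebra.singleAddHom (R := LPA ℂ G) (0 : ℤ)) _ _
  one := by
    have h1 := map_sum (AddMonoidAlgebra.singleAddHom (R := LPA ℂ G) (0 : ℤ))
      (fun a => gen ℂ G (Gen.v a)) Finset.univ
    rw [show ∑ a, gen ℂ G (Gen.v a) = 1 from (canon ℂ G).one] at h1
    exact h1.symm

/-- The grading homomorphism. -/
noncomputable def kap : LPA ℂ G →ₐ[ℂ] LM G := ofFam ℂ G (gfam G)

/-- The submonoid of homogeneous elements with homogeneous adjoint. -/
noncomputable def homo : Submonoid (LPA ℂ G) where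
  carrier := {y | ∃ d : ℤ, kap G y = AddMonoidAlgebra.single d y ∧
    kap G (star y) = AddMonoidAlgebra.single (-d) (star y)}
  one_mem' := ⟨0, by rw [map_one]; rfl, by rw [star_one, map_one, neg_zero]; rfl⟩
  mul_mem' := by
    rintro y z ⟨d, h1, h2⟩ ⟨d', h3, h4⟩
    refine ⟨d + d', ?_, ?_⟩
    · rw [map_mul, h1, h3, AddMonoidAlgebra.single_mul_single]
    · rw [star_mul, map_mul, h4, h2, AddMonoidAlgebra.single_mul_single, neg_add, add_comm (-d')]

theorem mem_span (y : LPA ℂ G) : y ∈ Submodule.span ℂ (homo G : Set (LPA ℂ G)) := by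
  have h1 : y ∈ Algebra.adjoin ℂ (Set.range (canon ℂ G).v ∪ Set.range (canon ℂ G).e ∪
      Set.range (canon ℂ G).g) := by
    rw [show Algebra.adjoin ℂ (Set.range (canon ℂ G).v ∪ Set.range (canon ℂ G).e ∪
      Set.range (canon ℂ G).g) = ⊤ from canon_gens ℂ G]
    trivial
  rw [← Subalgebra.mem_toSubmodule, Algebra.adjoin_eq_span] at h1
  refine Submodule.span_mono ?_ h1
  rw [SetLike.coe_subset_coe, Submonoid.closure_le]
  rintro _ ((⟨a, rfl⟩ | ⟨x, rfl⟩) | ⟨x, rfl⟩)
  · change gen ℂ G (Gen.v a) ∈ homo G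
    refine ⟨0, ofFam_gen ℂ G (gfam G) (Gen.v a), ?_⟩
    rw [star_gen, neg_zero]
    exact ofFam_gen ℂ G (gfam G) (Gen.v a)
  · change gen ℂ G (Gen.e x) ∈ homo G
    refine ⟨1, ofFam_gen ℂ G (gfam G) (Gen.e x), ?_⟩
    rw [star_gen]
    exact ofFam_gen ℂ G (gfam G) (Gen.g x)
  · change gen ℂ G (Gen.g x) ∈ homo G
    refine ⟨-1, ofFam_gen ℂ G (gfam G) (Gen.g x), ?_⟩
    rw [star_gen, neg_neg]
    exact ofFam_gen ℂ G (gfam G) (Gen.e x)

/-- The projections. -/
noncomputable def pj (j : ℤ) : LPA ℂ G →ₗ[ℂ] LPA ℂ G where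
  toFun y := (kap G y).coeff j
  map_add' y z := by rw [map_add, AddMonoidAlgebra.coeff_add, Finsupp.add_apply]
  map_smul' c y := by
    rw [map_smul, AddMonoidAlgebra.coeff_smul, Finsupp.smul_apply, RingHom.id_apply]

theorem pj_single {d : ℤ} {y : LPA ℂ G} (h : kap G y = AddMonoidAlgebra.single d y) (j : ℤ) :
    pj G j y = if j = d then y else 0 := by
  change (kap G y).coeff j = _
  rw [h, AddMonoidAlgebra.coeff_single, Finsupp.single_apply]
  by_cases h' : d = j
  · rw [if_pos h', if_pos h'.symm]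
  · rw [if_neg h', if_neg (Ne.symm h')]

theorem kap_pj (j : ℤ) (y : LPA ℂ G) :
    kap G (pj G j y) = AddMonoidAlgebra.single j (pj G j y) := by
  have hy := mem_span G y
  induction hy using Submodule.span_induction with
  | mem x hx =>
    obtain ⟨d, h1, -⟩ := hx
    rw [pj_single G h1]
    split_ifs with h
    · rw [h, h1]
    · rw [map_zero, AddMonoidAlgebra.single_zero]
  | zero => rw [map_zero, map_zero, AddMonoidAlgebra.single_zero]
  | add x z _ _ h1 h2 => rw [map_add, map_add, h1, h2, AddMonoidAlgebra.single_add]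
  | smul c x _ h => rw [map_smul, map_smul, h, AddMonoidAlgebra.smul_single]

theorem fin_pj (y : LPA ℂ G) : {j : ℤ | pj G j y ≠ 0}.Finite := by
  refine ((kap G y).coeff.support.finite_toSet).subset ?_
  intro j hj
  exact Finsupp.mem_support_iff.2 hj

theorem sum_pj (y : LPA ℂ G) : ∑ᶠ j : ℤ, pj G j y = y := by
  have hy := mem_span G y
  induction hy using Submodule.span_induction with
  | mem x hx =>
    obtain ⟨d, h1, -⟩ := hx
    simp only [pj_single G h1]
    rw [finsum_eq_single _ d (fun j hj => if_neg hj), if_pos rfl]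
  | zero => simp
  | add x z _ _ h1 h2 =>
    simp only [map_add]
    rw [finsum_add_distrib (fin_pj G x) (fin_pj G z), h1, h2]
  | smul c x _ h =>
    simp only [map_smul]
    rw [← smul_finsum' c (fin_pj G x), h]

/-- The gauge grading. -/
noncomputable def gr : ZGr (LPA ℂ G) where
  p := pj G
  fin := fin_pj G
  sum := sum_pj G
  pp i j y := by
    rw [pj_single G (kap_pj G j y)]
  mul i j y z := by
    have h : kap G (pj G i y * pj G j z) =
        AddMonoidAlgebra.single (i + j) (pj G i y * pj G j z) := by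
      rw [map_mul, kap_pj, kap_pj, AddMonoidAlgebra.single_mul_single]
    rw [pj_single G h, if_pos rfl]
  one := by
    have h : kap G 1 = AddMonoidAlgebra.single 0 1 := by
      rw [map_one]
      rfl
    rw [pj_single G h, if_pos rfl]
  st j y := by
    have hy := mem_span G y
    induction hy using Submodule.span_induction with
    | mem x hx =>
      obtain ⟨d, h1, h2⟩ := hx
      rw [pj_single G h1, pj_single G h2]
      by_cases h : j = d
      · rw [if_pos (by rw [h]), if_pos h]
      · rw [if_neg (by simpa using h), if_neg h, star_zero]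
    | zero => simp
    | add x z _ _ h1 h2 => rw [star_add, map_add, map_add, h1, h2, star_add]
    | smul c x _ h => rw [star_smul, map_smul, map_smul, h, star_smul]

end

theorem hT8 : StT8 := by
  intro V E _ _ _ _ G
  refine ⟨gr G, fun a => ?_, fun x => ?_⟩
  · change pj G 0 _ = _
    rw [pj_single G (show kap G (gen ℂ G (Gen.v a)) = AddMonoidAlgebra.single 0 _ from
      ofFam_gen ℂ G (gfam G) (Gen.v a)), if_pos rfl]
  · change pj G 1 _ = _
    rw [pj_single G (show kap G (gen ℂ G (Gen.e x)) = AddMonoidAlgebra.single 1 _ from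
      ofFam_gen ℂ G (gfam G) (Gen.e x)), if_pos rfl]

end Pool.Agent.Helper85.SI
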